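import Pool.Agent.P.MP_dfd561_co.Cube

namespace Pool.Agent.Results.MP_dfd561_co.EmptyBox

/-- For every dimension `d` and every power of two `n` there is a `d`-dimensional permutation
`A : [n]^(d+1) → {0,1}` of order `n` (exactly one entry `1` on every line) in which every empty box
`T 0 × ⋯ × T d` has volume at most `4^(d+2) (d+1) n^2`. -/
theorem result :
    ∀ (d n : ℕ), (∃ r : ℕ, n = 2 ^ r) →
      ∃ A : (Fin (d + 1) → Fin n) → Fin 2,
        (∀ (i : Fin (d + 1)) (α : Fin (d + 1) → Fin n),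
          ∃! x : Fin n, A (Function.update α i x) = 1) ∧
        ∀ T : Fin (d + 1) → Finset (Fin n),
          (∀ α : Fin (d + 1) → Fin n, (∀ i, α i ∈ T i) → A α = 0) →
          ∏ i, (T i).card ≤ (4 ^ (d + 2) * (d + 1)) * n ^ 2 := by
  rintro d n ⟨r, rfl⟩
  classical
  obtain ⟨A, h1, h2⟩ := Pool.Agent.P.MP_dfd561_co.exists_perm_fin d r
  refine ⟨fun α => if A α then 1 else 0, fun i α => ?_, fun T hT => h2 T fun α hα hA => ?_⟩
  · simpa using h1 i α
  · have := hT α hα
    simp [hA] at this

end Pool.Agent.Results.MP_dfd561_co.EmptyBox
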