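import Mathlib

namespace Pool.Agent.Results.MP_dfd561_co.LowerHalf

open Finset

/-- Two bijections `f, g` of a finite set: for every size `k` some `k`-set `X` has
`g X` inside `f X` plus one point. -/
lemma exists_arc {α : Type*} [Fintype α] [DecidableEq α] [Nonempty α] (f g : α → α)
    (hf : Function.Surjective f) (k : ℕ) (hk : k ≤ Fintype.card α) :
    ∃ X : Finset α, X.card = k ∧ ∃ y, X.image g ⊆ insert y (X.image f) := by
  induction k with
  | zero => exact ⟨∅, rfl, Classical.arbitrary α, by simp⟩
  | succ k ih =>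
    obtain ⟨X, hX, y, hy⟩ := ih (by omega)
    have key : ∃ x, x ∉ X ∧ y ∈ (insert x X).image f := by
      by_cases h : y ∈ X.image f
      · have : X ≠ Finset.univ := by
          intro h'
          rw [h', Finset.card_univ] at hX
          omega
        obtain ⟨x, hx⟩ : ∃ x, x ∉ X := by
          by_contra hc
          push Not at hc
          exact this (Finset.eq_univ_of_forall hc)
        exact ⟨x, hx, Finset.image_subset_image (Finset.subset_insert _ _) h⟩
      · obtain ⟨x, rfl⟩ := hf y
        exact ⟨x, fun hx => h (Finset.mem_image_of_mem _ hx),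
          Finset.mem_image_of_mem _ (Finset.mem_insert_self _ _)⟩
    obtain ⟨x, hx, hyx⟩ := key
    refine ⟨insert x X, by rw [Finset.card_insert_of_notMem hx, hX], g x, ?_⟩
    rw [Finset.image_insert]
    apply Finset.insert_subset_insert
    refine hy.trans ?_
    exact Finset.insert_subset hyx (Finset.image_subset_image (Finset.subset_insert _ _))

/-- For `d ≥ 2` every `d`-dimensional permutation `A : [n]^(d+1) → {0,1}` of order `n ≥ 2`
(exactly one entry `1` on every line) has an empty box of volume at least `2 ⌊(n-1)^2/4⌋`. -/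
theorem result :
    ∀ (d n : ℕ), 2 ≤ d → 2 ≤ n →
      ∀ A : (Fin (d + 1) → Fin n) → Fin 2,
        (∀ (i : Fin (d + 1)) (α : Fin (d + 1) → Fin n),
          ∃! x : Fin n, A (Function.update α i x) = 1) →
        ∃ T : Fin (d + 1) → Finset (Fin n),
          (∀ α : Fin (d + 1) → Fin n, (∀ i, α i ∈ T i) → A α = 0) ∧
          2 * ((n - 1) ^ 2 / 4) ≤ ∏ i, (T i).card := by
  intro d n hd hn A hA
  obtain ⟨e, rfl⟩ : ∃ e, d = e + 2 := ⟨d - 2, by omega⟩
  classical
  let z : Fin n := ⟨0, by omega⟩
  let o : Fin n := ⟨1, by omega⟩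
  have : Nonempty (Fin n) := ⟨z⟩
  let pt : Fin n → Fin n → Fin n → (Fin (e + 2 + 1) → Fin n) := fun x y s =>
    Fin.cons x (Fin.cons y (Fin.cons s fun _ => z))
  have u0 : ∀ x y s x', Function.update (pt x y s) 0 x' = pt x' y s := by
    intro x y s x'
    simp only [pt, Fin.update_cons_zero]
  have u1 : ∀ x y s y', Function.update (pt x y s) (Fin.succ 0) y' = pt x y' s := by
    intro x y s y'
    simp only [pt]
    rw [← Fin.cons_update, Fin.update_cons_zero]
  have h1 : ∀ s x, ∃! y, A (pt x y s) = 1 := by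
    intro s x
    simpa only [u1] using hA (Fin.succ 0) (pt x z s)
  have h0 : ∀ s y, ∃! x, A (pt x y s) = 1 := by
    intro s y
    simpa only [u0] using hA 0 (pt z y s)
  choose f hf hf' using h1
  have hsurj : Function.Surjective (f z) := by
    intro y
    obtain ⟨x, hx, _⟩ := h0 z y
    exact ⟨x, (hf' z x y hx).symm⟩
  obtain ⟨X, hX, y, hy⟩ := exists_arc (f z) (f o) hsurj ((n - 1) / 2) (by simp; omega)
  set Y : Finset (Fin n) := (insert y (X.image (f z)))ᶜ with hY
  have hYc : n - 1 - (n - 1) / 2 ≤ Y.card := by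
    have h2 : (insert y (X.image (f z))).card ≤ (n - 1) / 2 + 1 :=
      (Finset.card_insert_le _ _).trans (by
        have := Finset.card_image_le (s := X) (f := f z)
        omega)
    rw [hY, Finset.card_compl, Fintype.card_fin]
    omega
  refine ⟨Fin.cons X (Fin.cons Y (Fin.cons {z, o} fun _ => {z})), ?_, ?_⟩
  · intro α hα
    have a0 : α 0 ∈ X := hα 0
    have a1 : α (Fin.succ 0) ∈ Y := hα (Fin.succ 0)
    have a2 : α (Fin.succ (Fin.succ 0)) ∈ ({z, o} : Finset (Fin n)) := hα (Fin.succ (Fin.succ 0))
    have a3 : ∀ j : Fin e, α j.succ.succ.succ = z := fun j =>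
      Finset.mem_singleton.mp (hα j.succ.succ.succ)
    have hpt : α = pt (α 0) (α (Fin.succ 0)) (α (Fin.succ (Fin.succ 0))) := by
      funext i
      refine Fin.cases rfl (fun i => Fin.cases rfl (fun i => Fin.cases rfl (fun j => ?_) i) i) i
      exact a3 j
    have hne : A α ≠ 1 := by
      intro h
      rw [hpt] at h
      have h3 := hf' _ _ _ h
      rw [hY, Finset.mem_compl] at a1
      apply a1
      rw [h3]
      rcases Finset.mem_insert.mp a2 with h4 | h4
      · rw [h4]
        exact Finset.mem_insert_of_mem (Finset.mem_image_of_mem _ a0)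
      · rw [Finset.mem_singleton.mp h4]
        exact hy (Finset.mem_image_of_mem _ a0)
    omega
  · have hzo : z ≠ o := by simp [z, o, Fin.ext_iff]
    rw [Fin.prod_univ_succ, Fin.prod_univ_succ, Fin.prod_univ_succ]
    simp only [Fin.cons_zero, Fin.cons_succ, Finset.card_singleton, Finset.prod_const_one,
      Finset.card_pair hzo, hX]
    have h5 : (n - 1) ^ 2 / 4 ≤ (n - 1) / 2 * (n - 1 - (n - 1) / 2) := by
      obtain ⟨m, hm⟩ : ∃ m, n - 1 = 2 * m ∨ n - 1 = 2 * m + 1 := ⟨(n - 1) / 2, by omega⟩
      rcases hm with hm | hm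
      · rw [hm, show 2 * m / 2 = m by omega, show 2 * m - m = m by omega]
        exact Nat.div_le_of_le_mul (by nlinarith)
      · rw [hm, show (2 * m + 1) / 2 = m by omega, show 2 * m + 1 - m = m + 1 by omega]
        exact Nat.le_of_lt_succ (Nat.div_lt_of_lt_mul (by nlinarith))
    have h6 := Nat.mul_le_mul_left ((n - 1) / 2) hYc
    nlinarith

end Pool.Agent.Results.MP_dfd561_co.LowerHalf
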